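import Pool.Agent.H63.RK.Zorn
import Pool.Agent.H63.RK.AbCyc

/-!
# Kernels with locally nilpotent and locally finite factors

Let `C` be a class of groups with inheritance properties of the class of groups satisfying the A-theoretic Farrell-Jones
conjecture with coefficients and finite wreath products: it is closed under isomorphism, subgroups, finite products,
finite free products, overgroups of finite index, directed colimits, extensions (in the sense of virtually cyclic
preimages) and acylindrical actions on trees, and it contains the abelian-by-cyclic groups. Let `K` be a normal subgroup of `G` with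
`G ⧸ K` in `C`. If every normal subgroup `M` of `G` properly contained in `K` admits a nontrivial normal subgroup of
`G ⧸ M` in `K ⧸ M` which is locally nilpotent or locally finite, then `G` is in `C`.
-/

set_option autoImplicit false

namespace Pool.Agent.Results.MP_2a547c_gt.RadicalKernels

open Pool.Agent.H98.FJ Pool.Agent.H63.RK

theorem result (C : (G : Type) → [Group G] → Prop) (hC : Inherits C) (hE : Extension C)
    (hS : AbCyc C) (hA : AcylTrees C) (G : Type) [Group G] (K : Subgroup G) [K.Normal]
    (hQ : C (G ⧸ K))
    (hK : ∀ (M : Subgroup G) [M.Normal], M < K → ∃ L : Subgroup (G ⧸ M), L.Normal ∧ L ≠ ⊥ ∧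
      L ≤ K.map (QuotientGroup.mk' M) ∧ (LocNil L ∨ LocFin L)) : C G :=
  Pool.Agent.H63.RK.main hC hE (solv_of hC hE hS) hA K hQ hK

end Pool.Agent.Results.MP_2a547c_gt.RadicalKernels
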